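import Pool.Agent.helper85.PG.Spec3

/-!
# Small doubling and the Paley graph conjecture: module BST (the system of a Bohr set)
-/

set_option autoImplicit false

namespace Pool.Agent.helper85.PG

open Module

/-- The system of the Bohr set of `Γ`. -/
noncomputable def BST_G (m : ℕ) [NeZero m] (Γ : Finset (ZMod m)) : AddSubgroup (({r // r ∈ Γ} → ℝ) × ZMod m) where
  carrier := {z | ∀ r : {r // r ∈ Γ}, ((z.1 r : ℝ) : UnitAddCircle) = ZMod.toAddCircle (r.1 * z.2)}
  zero_mem' := by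
    intro r
    simp
  add_mem' := by
    intro a b ha hb r
    have h1 := ha r
    have h2 := hb r
    rw [Prod.fst_add, Pi.add_apply, AddCircle.coe_add, h1, h2, Prod.snd_add, mul_add, map_add]
  neg_mem' := by
    intro a ha r
    have h1 := ha r
    rw [Prod.fst_neg, Pi.neg_apply, AddCircle.coe_neg, h1, Prod.snd_neg, mul_neg, map_neg]

theorem BST_mem (m : ℕ) [NeZero m] (Γ : Finset (ZMod m)) (z : ({r // r ∈ Γ} → ℝ) × ZMod m) :
    z ∈ BST_G m Γ ↔ ∀ r : {r // r ∈ Γ}, ((z.1 r : ℝ) : UnitAddCircle) = ZMod.toAddCircle (r.1 * z.2) := Iff.rfl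

theorem BST_int (x y : ℝ) (h : ((x : ℝ) : UnitAddCircle) = ((y : ℝ) : UnitAddCircle)) : ∃ n : ℤ, x - y = n := by
  have h1 : (((x - y : ℝ)) : UnitAddCircle) = 0 := by rw [AddCircle.coe_sub, h, sub_self]
  obtain ⟨n, hn⟩ := (AddCircle.coe_eq_zero_iff (1 : ℝ)).1 h1
  refine ⟨n, ?_⟩
  rw [← hn]
  simp

theorem BST_lt (x y : ℝ) (h : ((x : ℝ) : UnitAddCircle) = ((y : ℝ) : UnitAddCircle)) (h1 : |x - y| < 1) : x = y := by
  obtain ⟨n, hn⟩ := BST_int x y h
  rw [hn] at h1
  have h2 : |n| < 1 := by exact_mod_cast h1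
  have h3 : n = 0 := Int.abs_lt_one_iff.1 h2
  rw [h3] at hn
  push_cast at hn
  linarith

theorem BST_FB (m : ℕ) [NeZero m] (Γ : Finset (ZMod m)) : FB (BST_G m Γ) := by
  intro R
  let f : ({r // r ∈ Γ} → ℝ) × ZMod m → ({r // r ∈ Γ} → ℤ) × ZMod m := fun z => (fun r => ⌊z.1 r⌋, z.2)
  refine Set.Finite.of_finite_image (f := f) ?_ ?_
  · refine Set.Finite.subset (s := (Set.univ.pi (fun _ : {r // r ∈ Γ} => Set.Icc ⌊-R⌋ ⌊R⌋)) ×ˢ (Set.univ : Set (ZMod m))) ?_ ?_
    · exact (Set.Finite.pi (fun _ => Set.finite_Icc _ _)).prod Set.finite_univ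
    · rintro _ ⟨z, hz, rfl⟩
      refine ⟨?_, Set.mem_univ _⟩
      intro r _
      have h1 : |z.1 r| ≤ R := by
        have h2 := (norm_le_pi_norm z.1 r).trans hz.2
        rwa [Real.norm_eq_abs] at h2
      have h3 := abs_le.1 h1
      exact ⟨Int.floor_le_floor h3.1, Int.floor_le_floor h3.2⟩
  · rintro z hz z' hz' h
    have h1 : z.2 = z'.2 := (Prod.mk.inj h).2
    have h2 : ∀ r, ⌊z.1 r⌋ = ⌊z'.1 r⌋ := fun r => congrFun (Prod.mk.inj h).1 r
    refine Prod.ext (funext fun r => ?_) h1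
    refine BST_lt _ _ ?_ ?_
    · rw [hz.1 r, hz'.1 r, h1]
    · exact Int.abs_sub_lt_one_of_floor_eq_floor (h2 r)

theorem BST_pos (m : ℕ) [NeZero m] (y : ZMod m) (t : ℝ) (h : ((t : ℝ) : UnitAddCircle) = ZMod.toAddCircle y) (ht : |t| ≤ 1 / 4) :
    0 ≤ (ZMod.stdAddChar y : ℂ).re := by
  have h1 : ZMod.toCircle y = AddCircle.toCircle (ZMod.toAddCircle y) := rfl
  rw [ZMod.stdAddChar_apply, h1, ← h, AddCircle.toCircle_apply_mk, Circle.coe_exp, Complex.exp_ofReal_mul_I_re]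
  have h2 := abs_le.1 ht
  refine Real.cos_nonneg_of_mem_Icc ⟨?_, ?_⟩
  · have h3 := Real.pi_pos
    nlinarith
  · have h3 := Real.pi_pos
    nlinarith

theorem BST_card (m : ℕ) [NeZero m] (Γ : Finset (ZMod m)) (k : ℕ) (hk : 0 < k) :
    m ≤ k ^ Γ.card * (ball (BST_G m Γ) (1 / (k : ℝ))).ncard := by
  classical
  have hkr : (0 : ℝ) < k := by exact_mod_cast hk
  have hmr : (0 : ℝ) < m := by exact_mod_cast NeZero.pos m
  let t : ZMod m → {r // r ∈ Γ} → ℝ := fun x r => ((r.1 * x).val : ℝ) / (m : ℝ)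
  have ht0 : ∀ x r, 0 ≤ t x r := fun x r => by positivity
  have ht1 : ∀ x r, t x r < 1 := fun x r => by
    have h1 : ((r.1 * x).val : ℝ) < m := by exact_mod_cast ZMod.val_lt _
    exact (div_lt_one hmr).2 h1
  have htG : ∀ x, (t x, x) ∈ BST_G m Γ := fun x r => by
    rw [ZMod.toAddCircle_apply]
  have hb : ∀ x r, ⌊(k : ℝ) * t x r⌋₊ < k := fun x r => by
    rw [Nat.floor_lt (by have := ht0 x r; positivity)]
    calc (k : ℝ) * t x r < k * 1 := by exact mul_lt_mul_of_pos_left (ht1 x r) hkr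
      _ = k := mul_one _
  let b : ZMod m → ({r // r ∈ Γ} → Fin k) := fun x r => ⟨⌊(k : ℝ) * t x r⌋₊, hb x r⟩
  have h1 := Finset.card_le_mul_card_image_of_maps_to (s := (Finset.univ : Finset (ZMod m))) (t := Finset.univ) (f := b)
    (fun a _ => Finset.mem_univ _) (ball (BST_G m Γ) (1 / (k : ℝ))).ncard ?_
  · rw [Finset.card_univ, ZMod.card, Finset.card_univ, Fintype.card_fun, Fintype.card_fin, Fintype.card_coe, mul_comm] at h1
    exact h1
  · intro y _
    rcases Finset.eq_empty_or_nonempty (Finset.univ.filter (fun a => b a = y)) with h2 | ⟨x0, hx0⟩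
    · rw [h2]
      exact Nat.zero_le _
    · rw [← Set.ncard_coe_finset]
      have hx0' : b x0 = y := (Finset.mem_filter.1 hx0).2
      refine Set.ncard_le_ncard_of_injOn (fun x => (t x - t x0, x - x0)) ?_ ?_ (BST_FB m Γ _)
      · intro x hx
        have hx' : b x = y := (Finset.mem_filter.1 (Finset.mem_coe.1 hx)).2
        refine ⟨(BST_G m Γ).sub_mem (htG x) (htG x0), ?_⟩
        change ‖t x - t x0‖ ≤ 1 / (k : ℝ)
        rw [pi_norm_le_iff_of_nonneg (by positivity)]
        intro r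
        have h3 : ⌊(k : ℝ) * t x r⌋₊ = ⌊(k : ℝ) * t x0 r⌋₊ := by
          have h4 : b x r = b x0 r := by rw [hx', hx0']
          exact congrArg Fin.val h4
        rw [Pi.sub_apply, Real.norm_eq_abs, le_div_iff₀ hkr]
        have h5 := Nat.floor_le (show 0 ≤ (k : ℝ) * t x r by have := ht0 x r; positivity)
        have h6 := Nat.lt_floor_add_one ((k : ℝ) * t x r)
        have h7 := Nat.floor_le (show 0 ≤ (k : ℝ) * t x0 r by have := ht0 x0 r; positivity)
        have h8 := Nat.lt_floor_add_one ((k : ℝ) * t x0 r)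
        rw [h3] at h5 h6
        have h9 : |(t x r - t x0 r) * k| ≤ 1 := by
          rw [abs_le]
          constructor <;> nlinarith
        rwa [abs_mul, abs_of_pos hkr] at h9
      · intro x _ x' _ h
        have h3 : x - x0 = x' - x0 := congrArg Prod.snd h
        exact sub_left_injective h3

/-- The system of a Bohr set. -/
theorem BST : BST_stmt := by
  intro m _ Γ h1
  refine ⟨({r // r ∈ Γ} → ℝ), inferInstance, inferInstance, inferInstance, BST_G m Γ, ?_, BST_FB m Γ, ?_, ?_, ?_, ?_⟩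
  · rw [Module.finrank_fintype_fun_eq_card, Fintype.card_coe]
  · intro z hz r hr
    have h2 := hz.1 ⟨r, hr⟩
    refine BST_pos m _ _ h2 ?_
    have h3 := (norm_le_pi_norm z.1 ⟨r, hr⟩).trans hz.2
    rwa [Real.norm_eq_abs] at h3
  · intro x hx
    have h2 := hx ⟨1, h1⟩
    change (((0 : ℝ)) : UnitAddCircle) = ZMod.toAddCircle ((1 : ZMod m) * x) at h2
    rw [one_mul] at h2
    have h3 : ZMod.toAddCircle x = ZMod.toAddCircle (0 : ZMod m) := by
      rw [map_zero, ← h2]
      rfl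
    exact ZMod.toAddCircle_injective m h3
  · intro z hz z' hz' h
    refine Prod.ext (funext fun r => ?_) h
    refine BST_lt _ _ ?_ ?_
    · rw [hz.1 r, hz'.1 r, h]
    · have h3 := (norm_le_pi_norm z.1 r).trans hz.2
      have h4 := (norm_le_pi_norm z'.1 r).trans hz'.2
      rw [Real.norm_eq_abs] at h3 h4
      have h5 := abs_sub (z.1 r) (z'.1 r)
      linarith
  · intro k hk
    exact BST_card m Γ k hk

end Pool.Agent.helper85.PG
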