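import Pool.Agent.helper85.PG.Spec5
import Pool.Agent.helper85.PG.Basic

/-!
# Small doubling and the Paley graph conjecture: module DIL (dilates)
-/

set_option autoImplicit false

namespace Pool.Agent.helper85.PG

open Module Pointwise

theorem DIL_mem {p : ℕ} [Fact p.Prime] (ρ : ZMod p) (S : Finset (ZMod p)) (y : ZMod p) :
    y ∈ dil ρ S ↔ ∃ z ∈ S, ρ * z = y := by
  unfold dil
  rw [Finset.mem_image]

theorem DIL_one (p : ℕ) [Fact p.Prime] (d : ℕ) (P : ℝ → Finset (ZMod p)) (ρ : ZMod p)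
    (h : IsSys p d P) : IsSys p d fun R => dil ρ (P R) := by
  obtain ⟨E, i1, i2, G, h1, h2, h3, hP⟩ := h
  let f : E × ZMod p →+ E × ZMod p :=
    { toFun := fun z => (z.1, ρ * z.2)
      map_zero' := by rw [Prod.fst_zero, Prod.snd_zero, mul_zero]; rfl
      map_add' := fun z z' => by rw [Prod.fst_add, Prod.snd_add, mul_add]; rfl }
  refine ⟨E, i1, i2, G.map f, h1, h2, fun R => ?_, fun R => ?_⟩
  · refine ((h3 R).image f).subset ?_
    rintro w ⟨hw, hwR⟩
    obtain ⟨z, hz, rfl⟩ := hw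
    exact ⟨z, ⟨hz, hwR⟩, rfl⟩
  · change dil ρ (P R) = _
    rw [hP]
    ext y
    rw [mem_PP, DIL_mem]
    constructor
    · rintro ⟨z, hz, rfl⟩
      obtain ⟨x, hx, hxR⟩ := (mem_PP G R z).1 hz
      exact ⟨x, ⟨(x, z), hx, rfl⟩, hxR⟩
    · rintro ⟨x, ⟨w, hw, hwe⟩, hxR⟩
      have he := Prod.mk.inj hwe
      refine ⟨w.2, (mem_PP G R w.2).2 ⟨w.1, hw, ?_⟩, he.2⟩
      rw [he.1]
      exact hxR

theorem DIL_two (p : ℕ) [Fact p.Prime] (S : Finset (ZMod p)) (ρ : ZMod p) (h : ρ ≠ 0) :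
    (dil ρ S).card = S.card ∧ (S ∩ dil ρ S).card = rr S ρ := by
  have hinj : Function.Injective fun y : ZMod p => ρ * y := mul_right_injective₀ h
  refine ⟨Finset.card_image_of_injective S hinj, ?_⟩
  unfold rr
  rw [← Finset.card_image_of_injective (S.filter fun y => ρ * y ∈ S) hinj]
  congr 1
  ext y
  rw [Finset.mem_inter, DIL_mem, Finset.mem_image]
  constructor
  · rintro ⟨hy, z, hz, rfl⟩
    exact ⟨z, Finset.mem_filter.2 ⟨hz, hy⟩, rfl⟩
  · rintro ⟨z, hz, rfl⟩
    have h1 := Finset.mem_filter.1 hz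
    exact ⟨h1.2, z, h1.1, rfl⟩

theorem DIL_sum (hINT : INT_stmt) (p : ℕ) [Fact p.Prime] (d : ℕ) (P : ℝ → Finset (ZMod p)) (ρ : ZMod p)
    (h : IsSys p d P) : IsSys p (d + d) fun l => P (4 * l) + dil ρ (P (4 * l)) := by
  have h1 : IsSys p d fun R => P (4 * R) := h.scale (by norm_num)
  exact (hINT p d d (fun R => P (4 * R)) (fun R => dil ρ (P (4 * R))) h1 (DIL_one p d _ ρ h1)).2

theorem DIL_three (hINT : INT_stmt) (p : ℕ) [Fact p.Prime] (d : ℕ) (P : ℝ → Finset (ZMod p))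
    (h : IsSys p d P) (k : ℕ) : ∀ ρ : Fin (k + 1) → ZMod p, IsSys p (2 * d * (k + 1)) (Zk P ρ) := by
  induction k with
  | zero =>
    intro ρ
    have h1 := DIL_sum hINT p d P (ρ 0) h
    have h2 : (Zk P ρ : ℝ → Finset (ZMod p)) = fun l => P (4 * l) + dil (ρ 0) (P (4 * l)) := by
      funext l
      ext y
      unfold Zk
      rw [Finset.mem_filter]
      constructor
      · intro hy
        exact hy.2 0
      · intro hy
        refine ⟨Finset.mem_univ _, fun i => ?_⟩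
        rw [Fin.fin_one_eq_zero i]
        exact hy
    have h3 : 2 * d * (0 + 1) = d + d := by ring
    rw [h2, h3]
    exact h1
  | succ k ih =>
    intro ρ
    have h1 := DIL_sum hINT p d P (ρ (Fin.last (k + 1))) h
    have h4 := (hINT p _ _ _ _ (ih (Fin.init ρ)) h1).1
    have h2 : (Zk P ρ : ℝ → Finset (ZMod p)) = fun l => Zk P (Fin.init ρ : Fin (k + 1) → ZMod p) l ∩
        (P (4 * l) + dil (ρ (Fin.last (k + 1))) (P (4 * l))) := by
      funext l
      ext y
      rw [Finset.mem_inter]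
      unfold Zk
      rw [Finset.mem_filter, Finset.mem_filter]
      constructor
      · intro hy
        exact ⟨⟨hy.1, fun i => hy.2 i.castSucc⟩, hy.2 _⟩
      · intro hy
        refine ⟨hy.1.1, fun i => ?_⟩
        refine Fin.lastCases ?_ (fun j => ?_) i
        · exact hy.2
        · exact hy.1.2 j
    have h3 : 2 * d * (k + 1 + 1) = 2 * d * (k + 1) + (d + d) := by ring
    rw [h2, h3]
    exact h4

/-- Dilates. -/
theorem DIL (hINT : INT_stmt) : DIL_stmt := by
  refine ⟨fun p _ d P ρ _ h => DIL_one p d P ρ h, fun p _ S ρ h => DIL_two p S ρ h, ?_⟩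
  intro p _ d k P ρ hk _ h
  obtain ⟨k', rfl⟩ : ∃ k', k = k' + 1 := ⟨k - 1, by omega⟩
  exact DIL_three hINT p d P h k' ρ

end Pool.Agent.helper85.PG
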